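import Mathlib

/-!
# Paths, derivatives along paths and the maximal collection generated by a collection of paths

All definitions follow the problem file literally.
-/

open Set

namespace Pool.Agent.Work.MP_78c6b8_an

/-- A path in the plane: a continuous map from a compact interval `[a, b]`, `a < b`, to `ℂ`.
Only the values of `toFun` on `[a, b]` are relevant. -/
structure CPath where
  /-- the map -/
  toFun : ℝ → ℂ
  /-- left end of the parameter interval -/
  a : ℝ
  /-- right end of the parameter interval -/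
  b : ℝ
  a_lt_b : a < b
  continuousOn : ContinuousOn toFun (Icc a b)

namespace CPath

/-- The initial endpoint `γ⁻ = γ(a)`. -/
def start (γ : CPath) : ℂ := γ.toFun γ.a

/-- The final endpoint `γ⁺ = γ(b)`. -/
def finish (γ : CPath) : ℂ := γ.toFun γ.b

/-- The image `γ* = γ([a, b])`. -/
def image (γ : CPath) : Set ℂ := γ.toFun '' Icc γ.a γ.b

/-- `σ` is a subpath of `γ`: the restriction of `γ` to a closed subinterval `[c, d] ⊆ [a, b]`,
`c < d`. -/
def IsSubpath (σ γ : CPath) : Prop :=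
  γ.a ≤ σ.a ∧ σ.b ≤ γ.b ∧ ∀ t ∈ Icc σ.a σ.b, σ.toFun t = γ.toFun t

/-- A Jordan path: the path is injective. -/
def IsJordan (γ : CPath) : Prop := InjOn γ.toFun (Icc γ.a γ.b)

/-- A rectifiable path: finite total variation. -/
def IsRectifiable (γ : CPath) : Prop := BoundedVariationOn γ.toFun (Icc γ.a γ.b)

/-- A constant path. -/
def IsConstant (γ : CPath) : Prop := ∃ z : ℂ, ∀ t ∈ Icc γ.a γ.b, γ.toFun t = z

/-- An admissible path: rectifiable, and none of its subpaths is constant. -/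
def IsAdmissible (γ : CPath) : Prop :=
  γ.IsRectifiable ∧ ∀ σ : CPath, σ.IsSubpath γ → ¬ σ.IsConstant

end CPath

/-- `HasContourIntegral γ g I` : the contour (Riemann-Stieltjes) integral `∫_γ g(z) dz` exists and
equals `I`, i.e. the Riemann-Stieltjes sums over tagged partitions
`a = t₀ ≤ t₁ ≤ … ≤ tₙ = b`, `tⱼ ≤ ξⱼ ≤ tⱼ₊₁`, converge to `I` as the mesh tends to `0`. -/
def HasContourIntegral (γ : CPath) (g : ℂ → ℂ) (I : ℂ) : Prop :=
  ∀ ε : ℝ, 0 < ε → ∃ δ : ℝ, 0 < δ ∧ ∀ (n : ℕ) (t ξ : ℕ → ℝ), t 0 = γ.a → t n = γ.b →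
    (∀ j < n, t j ≤ ξ j ∧ ξ j ≤ t (j + 1) ∧ t (j + 1) - t j < δ) →
    ‖(∑ j ∈ Finset.range n, g (γ.toFun (ξ j)) * (γ.toFun (t (j + 1)) - γ.toFun (t j))) - I‖ < ε

/-- For a collection `F` of paths in `X` and `f, g ∈ C(X)`: `g` is an `F`-derivative of `f`, i.e.
`∫_γ g(z) dz = f(γ⁺) - f(γ⁻)` for every `γ ∈ F`. -/
def IsCollectionDerivative (X : Set ℂ) (F : Set CPath) (f g : ℂ → ℂ) : Prop :=
  ContinuousOn f X ∧ ContinuousOn g X ∧
    ∀ γ ∈ F, HasContourIntegral γ g (f γ.finish - f γ.start)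

/-- `g` is a `γ`-derivative of `f`: `∫_σ g(z) dz = f(σ⁺) - f(σ⁻)` for every subpath `σ` of `γ`. -/
def IsPathDerivative (γ : CPath) (f g : ℂ → ℂ) : Prop :=
  ∀ σ : CPath, σ.IsSubpath γ → HasContourIntegral σ g (f σ.finish - f σ.start)

/-- The maximal collection `⟨F⟩` generated by a collection `F` of paths in `X`: all admissible
paths `γ` in `X` such that, for every `F`-differentiable `f ∈ C(X)` with `F`-derivative `g`,
`g` is a `γ`-derivative of `f`. -/
def maximalCollection (X : Set ℂ) (F : Set CPath) : Set CPath :=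
  {γ | γ.IsAdmissible ∧ γ.image ⊆ X ∧
    ∀ f g : ℂ → ℂ, IsCollectionDerivative X F f g → IsPathDerivative γ f g}

end Pool.Agent.Work.MP_78c6b8_an
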