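import Mathlib

open Set MeasureTheory Filter Topology
open scoped NNReal ENNReal

namespace Pool.Agent.Work.MP_78c6b8_an

/-- Lipschitz images of sets on the real line. -/
lemma volume_image_le {u : ℝ → ℝ} {K : ℝ≥0} {s : Set ℝ} (h : LipschitzOnWith K u s) :
    volume (u '' s) ≤ K * volume s := by
  have := h.hausdorffMeasure_image_le (d := 1) zero_le_one
  simpa [hausdorffMeasure_real] using this

/-- A unit complex number rotating `z` onto the positive real axis. -/
lemma exists_rot (z : ℂ) : ∃ w : ℂ, ‖w‖ = 1 ∧ (w * z).re = ‖z‖ := by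
  by_cases hz : z = 0
  · exact ⟨1, by simp, by simp [hz]⟩
  · have hn : (‖z‖ : ℂ) ≠ 0 := by simpa using hz
    refine ⟨(starRingEnd ℂ) z / ‖z‖, ?_, ?_⟩
    · rw [norm_div, RCLike.norm_conj]
      simp [norm_ne_zero_iff.mpr hz]
    · have : (starRingEnd ℂ) z / ‖z‖ * z = (‖z‖ : ℂ) := by
        rw [div_mul_eq_mul_div, mul_comm, Complex.mul_conj, Complex.normSq_eq_norm_sq]
        push_cast
        field_simp
      rw [this]; simp

lemma re_mul_sub_le {w : ℂ} (hw : ‖w‖ = 1) (a b : ℂ) :
    |(w * a).re - (w * b).re| ≤ ‖a - b‖ := by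
  rw [← Complex.sub_re, ← mul_sub]
  calc |(w * (a - b)).re| ≤ ‖w * (a - b)‖ := Complex.abs_re_le_norm _
    _ = ‖a - b‖ := by rw [norm_mul, hw, one_mul]

/-- For a `1`-Lipschitz curve, the displacement is bounded by the integral of the speed. -/
lemma norm_sub_le_integral {G : ℝ → ℂ} (hG : LipschitzWith 1 G) {x y : ℝ} (hxy : x ≤ y) :
    ‖G y - G x‖ ≤ ∫ t in x..y, ‖deriv G t‖ := by
  obtain ⟨w, hw, hwz⟩ := exists_rot (G y - G x)
  set u : ℝ → ℝ := fun t => (w * G t).re with hu
  have huL : LipschitzWith 1 u := by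
    refine LipschitzWith.of_dist_le_mul fun a b => ?_
    rw [Real.dist_eq]
    calc |u a - u b| ≤ ‖G a - G b‖ := re_mul_sub_le hw _ _
      _ = dist (G a) (G b) := (dist_eq_norm _ _).symm
      _ ≤ _ := hG.dist_le_mul a b
  have hac : AbsolutelyContinuousOnInterval u x y :=
    (huL.lipschitzOnWith (s := uIcc x y)).absolutelyContinuousOnInterval
  have hftc := hac.integral_deriv_eq_sub
  have hux : u y - u x = ‖G y - G x‖ := by
    rw [← hwz, mul_sub, Complex.sub_re]
  rw [← hux, ← hftc]
  have hdiff : ∀ᵐ t : ℝ, DifferentiableAt ℝ G t := hG.ae_differentiableAt_real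
  have hmeas : Measurable (fun t => ‖deriv G t‖) := (measurable_deriv G).norm
  apply intervalIntegral.integral_mono_ae hxy hac.intervalIntegrable_deriv
  · refine (intervalIntegrable_const (c := (1 : ℝ))).mono_fun' hmeas.aestronglyMeasurable ?_
    refine Eventually.of_forall fun t => ?_
    simpa using norm_deriv_le_of_lipschitz hG
  · filter_upwards [hdiff] with t ht
    have h1 : HasDerivAt (fun t => w * G t) (w * deriv G t) t := ht.hasDerivAt.const_mul w
    have h2 : HasDerivAt u (w * deriv G t).re t := by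
      have := (Complex.reCLM.hasFDerivAt (x := w * G t)).comp_hasDerivAt t h1
      simpa [hu, Function.comp_def] using this
    rw [h2.deriv]
    calc (w * deriv G t).re ≤ ‖w * deriv G t‖ := Complex.re_le_norm _
      _ = ‖deriv G t‖ := by rw [norm_mul, hw, one_mul]

/-- A unit speed curve has derivative of modulus one almost everywhere. -/
lemma ae_norm_deriv_eq_one {G : ℝ → ℂ} (hG : LipschitzWith 1 G) {L : ℝ} (hL : 0 ≤ L)
    (hvar : eVariationOn G (Icc 0 L) = ENNReal.ofReal L) :
    ∀ᵐ s : ℝ, s ∈ Icc 0 L → DifferentiableAt ℝ G s ∧ ‖deriv G s‖ = 1 := by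
  have hmeas : Measurable (fun t => ‖deriv G t‖) := (measurable_deriv G).norm
  have hle1 : ∀ t, ‖deriv G t‖ ≤ 1 := fun t => by simpa using norm_deriv_le_of_lipschitz hG
  have hint : ∀ x y : ℝ, IntervalIntegrable (fun t => ‖deriv G t‖) volume x y := fun x y => by
    refine (intervalIntegrable_const (c := (1 : ℝ))).mono_fun' hmeas.aestronglyMeasurable ?_
    exact Eventually.of_forall fun t => by simpa using hle1 t
  -- the integral of the speed is at least `L`
  have hge : L ≤ ∫ t in (0:ℝ)..L, ‖deriv G t‖ := by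
    have key : ENNReal.ofReal L ≤ ENNReal.ofReal (∫ t in (0:ℝ)..L, ‖deriv G t‖) := by
      rw [← hvar]
      apply iSup_le
      rintro ⟨n, u, hu, hus⟩
      simp only
      have h1 : ∑ i ∈ Finset.range n, edist (G (u (i + 1))) (G (u i)) ≤
          ENNReal.ofReal (∑ i ∈ Finset.range n, ∫ t in (u i)..(u (i+1)), ‖deriv G t‖) := by
        rw [ENNReal.ofReal_sum_of_nonneg]
        · refine Finset.sum_le_sum fun i _ => ?_
          rw [edist_dist, dist_eq_norm]
          exact ENNReal.ofReal_le_ofReal (norm_sub_le_integral hG (hu (Nat.le_succ i)))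
        · intro i _
          exact intervalIntegral.integral_nonneg (hu (Nat.le_succ i)) fun t _ => norm_nonneg _
      refine h1.trans (ENNReal.ofReal_le_ofReal ?_)
      rw [intervalIntegral.sum_integral_adjacent_intervals fun i _ => hint _ _]
      have h0 := (hus 0).1
      have hn := (hus n).2
      have h0n : u 0 ≤ u n := hu (Nat.zero_le n)
      have hsplit : ∫ t in (0:ℝ)..L, ‖deriv G t‖ = (∫ t in (0:ℝ)..(u 0), ‖deriv G t‖) +
          (∫ t in (u 0)..(u n), ‖deriv G t‖) + ∫ t in (u n)..L, ‖deriv G t‖ := by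
        rw [intervalIntegral.integral_add_adjacent_intervals (hint _ _) (hint _ _),
          intervalIntegral.integral_add_adjacent_intervals (hint _ _) (hint _ _)]
      rw [hsplit]
      have a1 : 0 ≤ ∫ t in (0:ℝ)..(u 0), ‖deriv G t‖ :=
        intervalIntegral.integral_nonneg h0 fun t _ => norm_nonneg _
      have a2 : 0 ≤ ∫ t in (u n)..L, ‖deriv G t‖ :=
        intervalIntegral.integral_nonneg hn fun t _ => norm_nonneg _
      linarith
    have hnn : 0 ≤ ∫ t in (0:ℝ)..L, ‖deriv G t‖ :=
      intervalIntegral.integral_nonneg hL fun t _ => norm_nonneg _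
    exact (ENNReal.ofReal_le_ofReal_iff hnn).1 key
  -- hence the speed is one almost everywhere
  have hzero : ∫ t in (0:ℝ)..L, (1 - ‖deriv G t‖) = 0 := by
    apply le_antisymm
    · rw [intervalIntegral.integral_sub (intervalIntegrable_const) (hint _ _)]
      simp; linarith
    · exact intervalIntegral.integral_nonneg hL fun t _ => by linarith [hle1 t]
  have hae : ∀ᵐ t ∂(volume.restrict (Ioc 0 L)), 1 - ‖deriv G t‖ = 0 := by
    rw [intervalIntegral.integral_of_le hL] at hzero
    rw [integral_eq_zero_iff_of_nonneg_ae] at hzero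
    · exact hzero
    · exact Eventually.of_forall fun t => by simpa using hle1 t
    · have := (intervalIntegrable_const (c := (1:ℝ)) (μ := volume) (a := 0) (b := L)).sub (hint 0 L)
      exact (intervalIntegrable_iff_integrableOn_Ioc_of_le hL).1 this
  rw [ae_restrict_iff' measurableSet_Ioc] at hae
  have h0 : ∀ᵐ t : ℝ, t ≠ 0 := by
    simp [ae_iff]
  filter_upwards [hae, hG.ae_differentiableAt_real, h0] with s hs hd hs0 hsI
  refine ⟨hd, ?_⟩
  have : s ∈ Ioc 0 L := ⟨lt_of_le_of_ne hsI.1 (Ne.symm hs0), hsI.2⟩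
  linarith [hs this]

end Pool.Agent.Work.MP_78c6b8_an
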