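import Mathlib
import Pool.Agent.Work.MP_78c6b8_an.Basic

open Set MeasureTheory Filter Topology
open scoped NNReal ENNReal

namespace Pool.Agent.Work.MP_78c6b8_an

/-- Local estimate at a good point of the curve. -/
lemma eventually_le_of_good {L : ℝ} {G : ℝ → ℂ} (hG : LipschitzWith 1 G)
    {φ h : ℂ → ℂ} (hh : ContinuousOn h (G '' Icc 0 L))
    (H : ∀ s s' : ℝ, 0 ≤ s → s ≤ s' → s' ≤ L → ∀ C : ℝ,
      (∀ t ∈ Icc s s', ‖h (G t)‖ ≤ C) → ‖φ (G s') - φ (G s)‖ ≤ C * (s' - s))
    {z : ℂ} {M ε : ℝ} (hM0 : 0 ≤ M) (hε : 0 < ε) 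
    (hzM : ‖h z‖ ≤ M)
    (hgood : ∀ s ∈ Icc 0 L, G s = z → DifferentiableAt ℝ G s ∧ ‖deriv G s‖ = 1) :
    ∀ᶠ w in 𝓝[G '' Icc 0 L] z, ‖φ w - φ z‖ ≤ (M + ε) * ‖w - z‖ := by
  set B : Set ℝ := {s | s ∈ Icc 0 L ∧ (M + ε) * ‖G s - z‖ < ‖φ (G s) - φ z‖} with hB
  have hBsub : closure B ⊆ Icc 0 L := closure_minimal (fun s hs => hs.1) isClosed_Icc
  have hcomp : IsCompact (closure B) := isCompact_Icc.of_isClosed_subset isClosed_closure hBsub
  have hcl : IsClosed (G '' closure B) := (hcomp.image hG.continuous).isClosed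
  have hnot : z ∉ G '' closure B := by
    rintro ⟨s₀, hs₀, hs₀z⟩
    have hs₀I := hBsub hs₀
    obtain ⟨hd, hn⟩ := hgood s₀ hs₀I hs₀z
    -- choose the small parameter
    set η : ℝ := (ε / 2) / (M + ε) with hη
    have hMε : 0 < M + ε := by linarith
    have hη0 : 0 < η := by positivity
    have h1 : ∀ᶠ s in 𝓝 s₀, (1 - η) * |s - s₀| ≤ ‖G s - G s₀‖ := by
      have hlo := hd.hasDerivAt.isLittleO
      have := hlo.def hη0
      filter_upwards [this] with s hs
      have e1 : ‖(s - s₀) • deriv G s₀‖ = |s - s₀| := by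
        rw [norm_smul, hn, mul_one, Real.norm_eq_abs]
      have e2 : ‖(s - s₀) • deriv G s₀‖ ≤ ‖G s - G s₀‖ + ‖G s - G s₀ - (s - s₀) • deriv G s₀‖ := by
        have := norm_sub_le (G s - G s₀) (G s - G s₀ - (s - s₀) • deriv G s₀)
        simpa using this
      rw [Real.norm_eq_abs] at hs
      nlinarith [abs_nonneg (s - s₀)]
    have hcont : ContinuousWithinAt (fun s => ‖h (G s)‖) (Icc 0 L) s₀ := by
      have : ContinuousOn (fun s => h (G s)) (Icc 0 L) :=
        hh.comp hG.continuous.continuousOn (fun s hs => mem_image_of_mem _ hs)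
      exact (this s₀ hs₀I).norm
    have h2 : ∀ᶠ s in 𝓝[Icc 0 L] s₀, ‖h (G s)‖ < M + ε / 2 := by
      apply hcont.eventually_lt_const
      show ‖h (G s₀)‖ < M + ε / 2
      rw [hs₀z]; linarith
    rw [eventually_nhdsWithin_iff] at h2
    obtain ⟨δ, hδ, hδ'⟩ := Metric.eventually_nhds_iff.1 (h1.and h2)
    -- a point of B within δ of s₀
    obtain ⟨s, hsB, hsd⟩ := Metric.mem_closure_iff.1 hs₀ δ hδ
    rw [dist_comm] at hsd
    have hs1 := (hδ' hsd).1
    have hbound : ‖φ (G s) - φ (G s₀)‖ ≤ (M + ε / 2) * |s - s₀| := by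
      rcases le_total s₀ s with hle | hle
      · rw [abs_of_nonneg (by linarith)]
        refine H s₀ s hs₀I.1 hle hsB.1.2 _ fun t ht => ?_
        refine ((hδ' (y := t) ?_).2 ⟨hs₀I.1.trans ht.1, ht.2.trans hsB.1.2⟩).le
        rw [Real.dist_eq] at hsd ⊢
        rw [abs_of_nonneg (by linarith [ht.1])]
        rw [abs_of_nonneg (by linarith)] at hsd
        linarith [ht.2]
      · rw [norm_sub_rev, abs_of_nonpos (by linarith), neg_sub]
        refine H s s₀ hsB.1.1 hle hs₀I.2 _ fun t ht => ?_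
        refine ((hδ' (y := t) ?_).2 ⟨hsB.1.1.trans ht.1, ht.2.trans hs₀I.2⟩).le
        rw [Real.dist_eq] at hsd ⊢
        rw [abs_of_nonpos (by linarith [ht.2])]
        rw [abs_of_nonpos (by linarith)] at hsd
        linarith [ht.1]
    have hkey : (M + ε / 2) * |s - s₀| ≤ (M + ε) * ‖G s - G s₀‖ := by
      have e : (M + ε) * (1 - η) = M + ε / 2 := by
        rw [hη]; field_simp; ring
      calc (M + ε / 2) * |s - s₀| = (M + ε) * ((1 - η) * |s - s₀|) := by rw [← e]; ring
        _ ≤ (M + ε) * ‖G s - G s₀‖ := by gcongr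
    have := hsB.2
    rw [← hs₀z] at this
    linarith
  have hopen : (G '' closure B)ᶜ ∈ 𝓝 z := hcl.isOpen_compl.mem_nhds hnot
  filter_upwards [mem_nhdsWithin_of_mem_nhds hopen, self_mem_nhdsWithin] with w hw hwX
  obtain ⟨s, hs, rfl⟩ := hwX
  by_contra hcon
  push Not at hcon
  exact hw ⟨s, subset_closure ⟨hs, hcon⟩, rfl⟩

/-- The measure estimate: if at every point of `S ⊆ [c,d]` the increments of `u` are eventually
bounded by `K` times those of a monotone function `V`, then `u(S)` has measure at most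
`K (V d - V c)`. -/
lemma volume_image_le_of_eventually {c d : ℝ} (hcd : c ≤ d) {u V : ℝ → ℝ} {K : ℝ} (hK : 0 ≤ K)
    (hV : MonotoneOn V (Icc c d)) {S : Set ℝ} (hS : S ⊆ Icc c d)
    (hloc : ∀ t ∈ S, ∀ᶠ t' in 𝓝[Icc c d] t, |u t' - u t| ≤ K * |V t' - V t|) :
    volume (u '' S) ≤ ENNReal.ofReal (K * (V d - V c)) := by
  set T : ℕ → Set ℝ := fun n => {t | t ∈ S ∧ ∀ t' ∈ Icc c d, |t' - t| < 1 / ((n : ℝ) + 1) →
    |u t' - u t| ≤ K * |V t' - V t|} with hT
  have hTmono : Monotone T := by
    intro m n hmn t ht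
    refine ⟨ht.1, fun t' ht' hlt => ht.2 t' ht' (hlt.trans_le ?_)⟩
    apply one_div_le_one_div_of_le (by positivity)
    have : (m : ℝ) ≤ n := by exact_mod_cast hmn
    linarith
  have hTS : S = ⋃ n, T n := by
    ext t
    simp only [mem_iUnion]
    constructor
    · intro ht
      have := hloc t ht
      rw [eventually_nhdsWithin_iff, Metric.eventually_nhds_iff] at this
      obtain ⟨δ, hδ, hδ'⟩ := this
      obtain ⟨n, hn⟩ := exists_nat_one_div_lt hδ
      refine ⟨n, ht, fun t' ht' hlt => hδ' ?_ ht'⟩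
      rw [Real.dist_eq]; exact hlt.trans hn
    · rintro ⟨n, hn⟩; exact hn.1
  have hbound : ∀ n, volume (u '' T n) ≤ ENNReal.ofReal (K * (V d - V c)) := by
    intro n
    -- partition into pieces of length `< 1/(n+1)`
    obtain ⟨N, hN⟩ := exists_nat_gt ((d - c) * ((n : ℝ) + 1))
    have hN0 : 0 < (N : ℝ) := lt_of_le_of_lt (by have : 0 ≤ d - c := by linarith
                                                 positivity) hN
    set p : ℕ → ℝ := fun j => c + j * ((d - c) / N) with hp
    have hpmono : Monotone p := by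
      intro i j hij
      have : (i : ℝ) ≤ j := by exact_mod_cast hij
      have h2 : 0 ≤ (d - c) / N := div_nonneg (by linarith) hN0.le
      simp only [hp]
      nlinarith
    have hp0 : p 0 = c := by simp [hp]
    have hpN : p N = d := by simp only [hp]; field_simp; ring
    have hcover : T n ⊆ ⋃ j ∈ Finset.range N, (T n ∩ Icc (p j) (p (j + 1))) := by
      intro t ht
      have htI := hS ht.1
      -- find the piece
      have hex : ∃ j, j < N ∧ t ∈ Icc (p j) (p (j + 1)) := by
        by_contra hcon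
        push Not at hcon
        have hall : ∀ j, j ≤ N → p j ≤ t := by
          intro j
          induction j with
          | zero => intro _; rw [hp0]; exact htI.1
          | succ j ih =>
            intro hj
            have h1 := ih (by omega)
            have h2 := hcon j (by omega)
            by_contra h3
            push Not at h3
            exact h2 ⟨h1, h3.le⟩
        have h4 := hall N le_rfl
        rw [hpN] at h4
        have : t = d := le_antisymm htI.2 h4
        have hN1 : 1 ≤ N := by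
          have : 0 < N := by exact_mod_cast hN0
          omega
        apply hcon (N - 1) (by omega)
        refine ⟨hall _ (by omega), ?_⟩
        rw [Nat.sub_add_cancel hN1, hpN, this]
      obtain ⟨j, hj, htj⟩ := hex
      simp only [mem_iUnion, Finset.mem_range]
      exact ⟨j, hj, ht, htj⟩
    have hpI : ∀ j, j ≤ N → p j ∈ Icc c d := fun j hj =>
      ⟨hp0 ▸ hpmono (Nat.zero_le j), hpN ▸ hpmono hj⟩
    have hpiece : ∀ j, j < N → volume (u '' (T n ∩ Icc (p j) (p (j + 1)))) ≤
        ENNReal.ofReal (K * (V (p (j + 1)) - V (p j))) := by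
      intro j hj
      refine (Real.volume_le_diam _).trans ?_
      apply Metric.ediam_le
      rintro _ ⟨t, ht, rfl⟩ _ ⟨t', ht', rfl⟩
      rw [edist_dist, Real.dist_eq, abs_sub_comm]
      apply ENNReal.ofReal_le_ofReal
      have hlen : p (j + 1) - p j < 1 / ((n : ℝ) + 1) := by
        have : p (j + 1) - p j = (d - c) / N := by simp only [hp]; push_cast; ring
        rw [this, div_lt_div_iff₀ hN0 (by positivity)]
        linarith
      have htI := hS ht.1.1
      have htI' := hS ht'.1.1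
      have hclose : |t' - t| < 1 / ((n : ℝ) + 1) := by
        rw [abs_lt]
        constructor
        · linarith [ht.2.2, ht'.2.1]
        · linarith [ht'.2.2, ht.2.1]
      refine (ht.1.2 t' htI' hclose).trans ?_
      apply mul_le_mul_of_nonneg_left _ hK
      have a1 : V (p j) ≤ V t := hV (hpI j hj.le) htI ht.2.1
      have a2 : V t ≤ V (p (j + 1)) := hV htI (hpI _ hj) ht.2.2
      have a3 : V (p j) ≤ V t' := hV (hpI j hj.le) htI' ht'.2.1
      have a4 : V t' ≤ V (p (j + 1)) := hV htI' (hpI _ hj) ht'.2.2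
      rw [abs_le]; constructor <;> linarith
    calc volume (u '' T n)
        ≤ volume (⋃ j ∈ Finset.range N, u '' (T n ∩ Icc (p j) (p (j + 1)))) := by
          apply measure_mono
          have := image_mono (f := u) hcover
          simpa only [image_iUnion] using this
      _ ≤ ∑ j ∈ Finset.range N, volume (u '' (T n ∩ Icc (p j) (p (j + 1)))) :=
          measure_biUnion_finset_le _ _
      _ ≤ ∑ j ∈ Finset.range N, ENNReal.ofReal (K * (V (p (j + 1)) - V (p j))) :=
          Finset.sum_le_sum fun j hj => hpiece j (Finset.mem_range.1 hj)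
      _ = ENNReal.ofReal (∑ j ∈ Finset.range N, K * (V (p (j + 1)) - V (p j))) := by
          rw [ENNReal.ofReal_sum_of_nonneg]
          intro j hj
          rw [Finset.mem_range] at hj
          apply mul_nonneg hK
          linarith [hV (hpI j hj.le) (hpI (j + 1) hj) (hpmono (Nat.le_succ j))]
      _ = ENNReal.ofReal (K * (V d - V c)) := by
          rw [← Finset.mul_sum, Finset.sum_range_sub (fun j => V (p j)), hp0, hpN]
  have himg : u '' S = ⋃ n, u '' T n := by rw [← image_iUnion, ← hTS]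
  rw [himg]
  have hdir : Directed (· ⊆ ·) fun n => u '' T n :=
    (show Monotone fun n => u '' T n from fun m n hmn => image_mono (hTmono hmn)).directed_le
  rw [hdir.measure_iUnion]
  exact iSup_le hbound

/-- The key estimate: a function with derivative `h` along the unit speed curve `G` satisfies the
mean value inequality along every rectifiable path in the image of `G`. -/
lemma key_estimate {L : ℝ} {G : ℝ → ℂ} (hG : LipschitzWith 1 G)
    (hae : ∀ᵐ s : ℝ, s ∈ Icc 0 L → DifferentiableAt ℝ G s ∧ ‖deriv G s‖ = 1)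
    {φ h : ℂ → ℂ} (hφ : ContinuousOn φ (G '' Icc 0 L)) (hh : ContinuousOn h (G '' Icc 0 L))
    (H : ∀ s s' : ℝ, 0 ≤ s → s ≤ s' → s' ≤ L → ∀ C : ℝ,
      (∀ t ∈ Icc s s', ‖h (G t)‖ ≤ C) → ‖φ (G s') - φ (G s)‖ ≤ C * (s' - s))
    {c d : ℝ} (hcd : c ≤ d) {γ : ℝ → ℂ} (hγ : ContinuousOn γ (Icc c d))
    (hBV : BoundedVariationOn γ (Icc c d)) (hγX : γ '' Icc c d ⊆ G '' Icc 0 L)
    {M : ℝ} (hM : ∀ t ∈ Icc c d, ‖h (γ t)‖ ≤ M) :
    ‖φ (γ d) - φ (γ c)‖ ≤ M * (eVariationOn γ (Icc c d)).toReal := by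
  have hM0 : 0 ≤ M := (norm_nonneg _).trans (hM c ⟨le_rfl, hcd⟩)
  obtain ⟨w, hw, hwz⟩ := exists_rot (φ (γ d) - φ (γ c))
  set u : ℝ → ℝ := fun t => (w * φ (γ t)).re with hu
  have hud : u d - u c = ‖φ (γ d) - φ (γ c)‖ := by rw [← hwz, mul_sub, Complex.sub_re]
  have hLBV : LocallyBoundedVariationOn γ (Icc c d) := hBV.locallyBoundedVariationOn
  have hcI : c ∈ Icc c d := ⟨le_rfl, hcd⟩
  have hdI : d ∈ Icc c d := ⟨hcd, le_rfl⟩
  set V : ℝ → ℝ := fun t => variationOnFromTo γ (Icc c d) c t with hVdef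
  have hVmono : MonotoneOn V (Icc c d) := variationOnFromTo.monotoneOn hLBV hcI
  have hVc : V c = 0 := variationOnFromTo.self _ _ _
  have hVd : V d = (eVariationOn γ (Icc c d)).toReal := by
    rw [hVdef]
    simp only
    rw [variationOnFromTo.eq_of_le _ _ hcd, inter_self]
  have hγV : ∀ t ∈ Icc c d, ∀ t' ∈ Icc c d, ‖γ t' - γ t‖ ≤ |V t' - V t| := by
    have key : ∀ t ∈ Icc c d, ∀ t' ∈ Icc c d, t ≤ t' → ‖γ t' - γ t‖ ≤ V t' - V t := by
      intro t ht t' ht' htt'
      have h1 : V t' - V t = variationOnFromTo γ (Icc c d) t t' :=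
        variationOnFromTo.sub_right hLBV hcI ht' ht
      rw [h1, variationOnFromTo.eq_of_le _ _ htt', ← dist_eq_norm, dist_edist]
      apply ENNReal.toReal_mono (hLBV t t' ht ht')
      exact eVariationOn.edist_le γ ⟨ht', htt', le_rfl⟩ ⟨ht, le_rfl, htt'⟩
    intro t ht t' ht'
    rcases le_total t t' with hle | hle
    · exact (key t ht t' ht' hle).trans (le_abs_self _)
    · rw [norm_sub_rev, abs_sub_comm]
      exact (key t' ht' t ht hle).trans (le_abs_self _)
  -- the exceptional set of parameters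
  set T₀ : Set ℝ := {s | s ∈ Icc 0 L ∧ ¬ (DifferentiableAt ℝ G s ∧ ‖deriv G s‖ = 1)} with hT₀
  have hT₀null : volume T₀ = 0 := by
    have : T₀ = {s | ¬ (s ∈ Icc 0 L → DifferentiableAt ℝ G s ∧ ‖deriv G s‖ = 1)} := by
      ext s; simp only [hT₀, mem_ofPred_eq, Classical.not_imp]
    rw [this]; exact hae
  -- bound for `h` on the compact image
  have hXc : IsCompact (G '' Icc 0 L) := isCompact_Icc.image hG.continuous
  obtain ⟨C₀, hC₀⟩ := hXc.exists_bound_of_continuousOn hh
  set C₁ : ℝ := max C₀ 0 with hC₁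
  have hC₁0 : 0 ≤ C₁ := le_max_right _ _
  have hLipφ : LipschitzOnWith (Real.toNNReal C₁) (fun s => (w * φ (G s)).re) (Icc 0 L) := by
    have key : ∀ x ∈ Icc (0:ℝ) L, ∀ y ∈ Icc (0:ℝ) L, x ≤ y →
        |(w * φ (G y)).re - (w * φ (G x)).re| ≤ C₁ * (y - x) := by
      intro x hx y hy hxy
      refine (re_mul_sub_le hw _ _).trans ?_
      refine H x y hx.1 hxy hy.2 C₁ fun t ht => ?_
      exact (hC₀ _ (mem_image_of_mem _ ⟨hx.1.trans ht.1, ht.2.trans hy.2⟩)).trans (le_max_left _ _)
    refine LipschitzOnWith.of_dist_le_mul fun x hx y hy => ?_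
    rw [Real.coe_toNNReal _ hC₁0, Real.dist_eq, Real.dist_eq]
    rcases le_total x y with hle | hle
    · rw [abs_sub_comm, abs_sub_comm x y, abs_of_nonneg (by linarith : (0:ℝ) ≤ y - x)]
      exact key x hx y hy hle
    · rw [abs_of_nonneg (by linarith : (0:ℝ) ≤ x - y)]
      exact key y hy x hx hle
  -- continuity and the intermediate value theorem
  have hmaps : MapsTo γ (Icc c d) (G '' Icc 0 L) := fun t ht => hγX (mem_image_of_mem _ ht)
  have hucont : ContinuousOn u (Icc c d) := by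
    have h1 : ContinuousOn (fun t => w * φ (γ t)) (Icc c d) :=
      continuousOn_const.mul (hφ.comp hγ hmaps)
    exact Complex.continuous_re.comp_continuousOn h1
  have hivt : Icc (u c) (u d) ⊆ u '' Icc c d := intermediate_value_Icc hcd hucont
  have hmeas1 : ENNReal.ofReal (u d - u c) ≤ volume (u '' Icc c d) := by
    rw [← Real.volume_Icc]; exact measure_mono hivt
  -- splitting
  set Sb : Set ℝ := {t | t ∈ Icc c d ∧ γ t ∈ G '' T₀} with hSb
  set Sg : Set ℝ := {t | t ∈ Icc c d ∧ γ t ∉ G '' T₀} with hSg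
  have hsplit : u '' Icc c d ⊆ u '' Sb ∪ u '' Sg := by
    rintro _ ⟨t, ht, rfl⟩
    by_cases hb : γ t ∈ G '' T₀
    · exact Or.inl ⟨t, ⟨ht, hb⟩, rfl⟩
    · exact Or.inr ⟨t, ⟨ht, hb⟩, rfl⟩
  have hbad : volume (u '' Sb) = 0 := by
    have hsub : u '' Sb ⊆ (fun s => (w * φ (G s)).re) '' T₀ := by
      rintro _ ⟨t, ⟨_, s, hs, hst⟩, rfl⟩
      exact ⟨s, hs, by simp only [hu, hst]⟩
    refine measure_mono_null hsub ?_
    have hle := volume_image_le (hLipφ.mono (s := T₀) fun s hs => hs.1)
    rw [hT₀null, mul_zero] at hle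
    exact le_antisymm hle (by simp)
  have hgoodm : ∀ ε : ℝ, 0 < ε → volume (u '' Sg) ≤ ENNReal.ofReal ((M + ε) * (V d - V c)) := by
    intro ε hε
    apply volume_image_le_of_eventually hcd (by linarith) hVmono (fun t ht => ht.1)
    rintro t ⟨ht, htZ⟩
    have hz : γ t ∈ G '' Icc 0 L := hmaps ht
    have hev := eventually_le_of_good hG hh H hM0 hε (hM t ht) (by
      intro s hs hsz
      by_contra hcon
      exact htZ ⟨s, ⟨hs, hcon⟩, hsz⟩)
    have htend : Tendsto γ (𝓝[Icc c d] t) (𝓝[G '' Icc 0 L] (γ t)) :=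
      (hγ t ht).tendsto_nhdsWithin hmaps
    filter_upwards [htend.eventually hev, self_mem_nhdsWithin] with t' h1 ht'
    calc |u t' - u t| ≤ ‖φ (γ t') - φ (γ t)‖ := re_mul_sub_le hw _ _
      _ ≤ (M + ε) * ‖γ t' - γ t‖ := h1
      _ ≤ (M + ε) * |V t' - V t| := by
          apply mul_le_mul_of_nonneg_left (hγV t ht t' ht') (by linarith)
  have hfin : ∀ ε : ℝ, 0 < ε → u d - u c ≤ (M + ε) * (V d - V c) := by
    intro ε hε
    have hVnn : 0 ≤ V d - V c := by linarith [hVmono hcI hdI hcd]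
    have h1 : ENNReal.ofReal (u d - u c) ≤ ENNReal.ofReal ((M + ε) * (V d - V c)) :=
      calc ENNReal.ofReal (u d - u c) ≤ volume (u '' Icc c d) := hmeas1
        _ ≤ volume (u '' Sb ∪ u '' Sg) := measure_mono hsplit
        _ ≤ volume (u '' Sb) + volume (u '' Sg) := measure_union_le _ _
        _ ≤ _ := by rw [hbad, zero_add]; exact hgoodm ε hε
    exact (ENNReal.ofReal_le_ofReal_iff (mul_nonneg (by linarith) hVnn)).1 h1
  have hlim : u d - u c ≤ M * (V d - V c) := by
    have hVnn : 0 ≤ V d - V c := by linarith [hVmono hcI hdI hcd]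
    apply le_of_forall_pos_le_add
    intro δ hδ
    have := hfin (δ / (V d - V c + 1)) (by positivity)
    have h2 : δ / (V d - V c + 1) * (V d - V c) ≤ δ := by
      rw [div_mul_eq_mul_div, div_le_iff₀ (by linarith)]
      nlinarith
    nlinarith
  rw [← hud, ← hVd]
  rw [hVc, sub_zero] at hlim
  exact hlim

/-- A Jordan path in the image of a `1`-Lipschitz curve on `[0, L]` has length at most `L`. -/
lemma jordan_variation_le {L : ℝ} {G : ℝ → ℂ} (hG : LipschitzWith 1 G)
    {c d : ℝ} {γ : ℝ → ℂ} (hγ : ContinuousOn γ (Icc c d)) (hinj : InjOn γ (Icc c d))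
    (hγX : γ '' Icc c d ⊆ G '' Icc 0 L) :
    eVariationOn γ (Icc c d) ≤ ENNReal.ofReal L := by
  apply iSup_le
  rintro ⟨n, u, hu, hus⟩
  simp only
  set K : ℕ → Set ℝ := fun i => Icc 0 L ∩ G ⁻¹' (γ '' Ico (u i) (u (i + 1))) with hK
  have hsubI : ∀ i j, Icc (u i) (u j) ⊆ Icc c d := fun i j t ht =>
    ⟨(hus i).1.trans ht.1, ht.2.trans (hus j).2⟩
  have hmeasK : ∀ i, MeasurableSet (K i) := by
    intro i
    apply measurableSet_Icc.inter
    apply hG.continuous.measurable
    have hcompact : IsCompact (γ '' Icc (u i) (u (i + 1))) :=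
      isCompact_Icc.image_of_continuousOn (hγ.mono (hsubI _ _))
    have heq : γ '' Ico (u i) (u (i + 1)) = γ '' Icc (u i) (u (i + 1)) \ {γ (u (i + 1))} := by
      ext z
      constructor
      · rintro ⟨t, ht, rfl⟩
        refine ⟨⟨t, ⟨ht.1, ht.2.le⟩, rfl⟩, ?_⟩
        intro hmem
        have := hinj (hsubI _ _ ⟨ht.1, ht.2.le⟩) (hus (i + 1)) hmem
        exact absurd this ht.2.ne
      · rintro ⟨⟨t, ht, rfl⟩, hne⟩
        refine ⟨t, ⟨ht.1, lt_of_le_of_ne ht.2 ?_⟩, rfl⟩
        rintro rfl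
        exact hne rfl
    rw [heq]
    exact hcompact.isClosed.measurableSet.diff (measurableSet_singleton _)
  have hdisj : Pairwise (Function.onFun Disjoint K) := by
    intro i j hij
    rw [Function.onFun, Set.disjoint_left]
    rintro s ⟨_, t, ht, hts⟩ ⟨_, t', ht', hts'⟩
    have : t = t' := hinj (hsubI _ _ ⟨ht.1, ht.2.le⟩) (hsubI _ _ ⟨ht'.1, ht'.2.le⟩)
      (hts.trans hts'.symm)
    subst this
    rcases lt_or_gt_of_ne hij with h | h
    · have := hu (show i + 1 ≤ j by omega)
      linarith [ht.2, ht'.1]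
    · have := hu (show j + 1 ≤ i by omega)
      linarith [ht'.2, ht.1]
  have hedist : ∀ i, edist (γ (u (i + 1))) (γ (u i)) ≤ volume (K i) := by
    intro i
    obtain ⟨w, hw, hwz⟩ := exists_rot (γ (u (i + 1)) - γ (u i))
    set p : ℂ → ℝ := fun z => (w * z).re with hp
    have hpL : LipschitzWith 1 (fun s => p (G s)) := by
      refine LipschitzWith.of_dist_le_mul fun a b => ?_
      rw [Real.dist_eq]
      calc |p (G a) - p (G b)| ≤ ‖G a - G b‖ := re_mul_sub_le hw _ _
        _ = dist (G a) (G b) := (dist_eq_norm _ _).symm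
        _ ≤ _ := hG.dist_le_mul a b
    have h1 : volume ((fun s => p (G s)) '' K i) ≤ volume (K i) := by
      simpa using volume_image_le (hpL.lipschitzOnWith (s := K i))
    refine le_trans ?_ h1
    have hpc : ContinuousOn (fun t => p (γ t)) (Icc (u i) (u (i + 1))) := by
      have h1 : ContinuousOn (fun t => w * γ t) (Icc (u i) (u (i + 1))) :=
        continuousOn_const.mul (hγ.mono (hsubI _ _))
      exact Complex.continuous_re.comp_continuousOn h1
    have hivt := intermediate_value_Ico (hu (Nat.le_succ i)) hpc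
    have hsub : Ico (p (γ (u i))) (p (γ (u (i + 1)))) ⊆ (fun s => p (G s)) '' K i := by
      refine hivt.trans ?_
      rintro _ ⟨t, ht, rfl⟩
      obtain ⟨s, hs, hst⟩ := hγX (mem_image_of_mem γ (hsubI _ _ ⟨ht.1, ht.2.le⟩))
      exact ⟨s, ⟨hs, t, ht, hst.symm⟩, by simp only [hst]⟩
    calc edist (γ (u (i + 1))) (γ (u i)) = ENNReal.ofReal (p (γ (u (i + 1))) - p (γ (u i))) := by
          rw [edist_dist, dist_eq_norm, ← hwz, mul_sub, Complex.sub_re]
      _ = volume (Ico (p (γ (u i))) (p (γ (u (i + 1))))) := (Real.volume_Ico).symm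
      _ ≤ _ := measure_mono hsub
  calc ∑ i ∈ Finset.range n, edist (γ (u (i + 1))) (γ (u i))
      ≤ ∑ i ∈ Finset.range n, volume (K i) := Finset.sum_le_sum fun i _ => hedist i
    _ = volume (⋃ i ∈ Finset.range n, K i) := by
        rw [measure_biUnion_finset]
        · intro i _ j _ hij; exact hdisj hij
        · intro i _; exact hmeasK i
    _ ≤ volume (Icc 0 L) := by
        apply measure_mono
        intro s hs
        simp only [mem_iUnion] at hs
        obtain ⟨i, _, hi⟩ := hs
        exact hi.1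
    _ = ENNReal.ofReal L := by rw [Real.volume_Icc, sub_zero]

end Pool.Agent.Work.MP_78c6b8_an
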