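import Mathlib
import Pool.Agent.Work.MP_78c6b8_an.Defs
import Pool.Agent.Work.MP_78c6b8_an.Key

open Set MeasureTheory Filter Topology
open scoped NNReal ENNReal

namespace Pool.Agent.Work.MP_78c6b8_an

/-- Sum of the increments of a function of bounded variation over a partition. -/
lemma sum_norm_le_variation {γ : ℝ → ℂ} {a b : ℝ} (hBV : BoundedVariationOn γ (Icc a b))
    {n : ℕ} {t : ℕ → ℝ} (ht : MonotoneOn t (Iic n)) (ht0 : t 0 = a) (htn : t n = b) :
    ∑ j ∈ Finset.range n, ‖γ (t (j + 1)) - γ (t j)‖ ≤ (eVariationOn γ (Icc a b)).toReal := by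
  have h1 : ∑ j ∈ Finset.range n, edist (γ (t (j + 1))) (γ (t j)) ≤ eVariationOn γ (Icc a b) :=
    eVariationOn.sum_le_of_monotoneOn_Iic ht fun i hi =>
      ⟨ht0 ▸ ht (show 0 ∈ Iic n from Nat.zero_le n) hi (Nat.zero_le i),
        htn ▸ ht hi (Set.mem_Iic.2 le_rfl) hi⟩
  have h2 : ∑ j ∈ Finset.range n, edist (γ (t (j + 1))) (γ (t j)) =
      ENNReal.ofReal (∑ j ∈ Finset.range n, ‖γ (t (j + 1)) - γ (t j)‖) := by
    rw [ENNReal.ofReal_sum_of_nonneg fun _ _ => norm_nonneg _]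
    refine Finset.sum_congr rfl fun j _ => ?_
    rw [edist_dist, dist_eq_norm]
  rw [h2] at h1
  rw [← ENNReal.toReal_ofReal (Finset.sum_nonneg fun j _ => norm_nonneg
    (γ (t (j + 1)) - γ (t j)))]
  exact ENNReal.toReal_mono hBV h1

/-- From the Riemann-Stieltjes integral to the mean value inequality. -/
lemma mean_value_of_integral {σ : CPath} (hBV : BoundedVariationOn σ.toFun (Icc σ.a σ.b))
    {g : ℂ → ℂ} {I w : ℂ} (hI : HasContourIntegral σ g I) {C : ℝ}
    (hC : ∀ t ∈ Icc σ.a σ.b, ‖g (σ.toFun t) - w‖ ≤ C) :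
    ‖I - w * (σ.finish - σ.start)‖ ≤ C * (eVariationOn σ.toFun (Icc σ.a σ.b)).toReal := by
  have hC0 : 0 ≤ C := (norm_nonneg _).trans (hC σ.a ⟨le_rfl, σ.a_lt_b.le⟩)
  apply le_of_forall_pos_le_add
  intro ε hε
  obtain ⟨δ, hδ, hδ'⟩ := hI ε hε
  have hlt := σ.a_lt_b
  obtain ⟨N, hN⟩ := exists_nat_gt ((σ.b - σ.a) / δ)
  have hN0 : 0 < (N : ℝ) := lt_of_le_of_lt (div_nonneg (by linarith) hδ.le) hN
  set p : ℕ → ℝ := fun j => σ.a + j * ((σ.b - σ.a) / N) with hp
  have hpmono : Monotone p := by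
    intro i j hij
    have : (i : ℝ) ≤ j := by exact_mod_cast hij
    have h2 : 0 ≤ (σ.b - σ.a) / N := div_nonneg (by linarith) hN0.le
    simp only [hp]
    nlinarith
  have hp0 : p 0 = σ.a := by simp [hp]
  have hpN : p N = σ.b := by simp only [hp]; field_simp; ring
  have hmesh : ∀ j < N, p j ≤ p j ∧ p j ≤ p (j + 1) ∧ p (j + 1) - p j < δ := by
    intro j _
    refine ⟨le_rfl, hpmono (Nat.le_succ j), ?_⟩
    have : p (j + 1) - p j = (σ.b - σ.a) / N := by simp only [hp]; push_cast; ring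
    rw [this, div_lt_iff₀ hN0]
    rw [div_lt_iff₀ hδ] at hN
    linarith
  have h1 := hδ' N p p hp0 hpN hmesh
  have htel : w * (σ.finish - σ.start) =
      ∑ j ∈ Finset.range N, w * (σ.toFun (p (j + 1)) - σ.toFun (p j)) := by
    rw [← Finset.mul_sum, Finset.sum_range_sub (fun j => σ.toFun (p j)), hp0, hpN]
    rfl
  have hsum : ‖(∑ j ∈ Finset.range N, g (σ.toFun (p j)) * (σ.toFun (p (j + 1)) - σ.toFun (p j))) -
      w * (σ.finish - σ.start)‖ ≤ C * (eVariationOn σ.toFun (Icc σ.a σ.b)).toReal := by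
    rw [htel, ← Finset.sum_sub_distrib]
    calc ‖∑ j ∈ Finset.range N, (g (σ.toFun (p j)) * (σ.toFun (p (j + 1)) - σ.toFun (p j)) -
          w * (σ.toFun (p (j + 1)) - σ.toFun (p j)))‖
        ≤ ∑ j ∈ Finset.range N, ‖g (σ.toFun (p j)) * (σ.toFun (p (j + 1)) - σ.toFun (p j)) -
          w * (σ.toFun (p (j + 1)) - σ.toFun (p j))‖ := norm_sum_le _ _
      _ ≤ ∑ j ∈ Finset.range N, C * ‖σ.toFun (p (j + 1)) - σ.toFun (p j)‖ := by
          refine Finset.sum_le_sum fun j hj => ?_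
          rw [← sub_mul, norm_mul]
          have hjN : j ≤ N := (Finset.mem_range.1 hj).le
          exact mul_le_mul_of_nonneg_right
            (hC _ ⟨hp0 ▸ hpmono (Nat.zero_le j), hpN ▸ hpmono hjN⟩) (norm_nonneg _)
      _ = C * ∑ j ∈ Finset.range N, ‖σ.toFun (p (j + 1)) - σ.toFun (p j)‖ :=
          (Finset.mul_sum _ _ _).symm
      _ ≤ _ := mul_le_mul_of_nonneg_left
          (sum_norm_le_variation hBV (hpmono.monotoneOn _) hp0 hpN) hC0
  calc ‖I - w * (σ.finish - σ.start)‖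
      = ‖((∑ j ∈ Finset.range N, g (σ.toFun (p j)) * (σ.toFun (p (j + 1)) - σ.toFun (p j))) -
        w * (σ.finish - σ.start)) -
        ((∑ j ∈ Finset.range N, g (σ.toFun (p j)) * (σ.toFun (p (j + 1)) - σ.toFun (p j))) - I)‖ := by
        congr 1; ring
    _ ≤ _ := norm_sub_le _ _
    _ ≤ _ := add_le_add hsum h1.le

/-- From the mean value inequality on all subintervals to the Riemann-Stieltjes integral. -/
lemma integral_of_mean_value {σ : CPath} (hBV : BoundedVariationOn σ.toFun (Icc σ.a σ.b))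
    {f g : ℂ → ℂ} (hg : ContinuousOn (fun t => g (σ.toFun t)) (Icc σ.a σ.b))
    (H : ∀ c d : ℝ, σ.a ≤ c → c ≤ d → d ≤ σ.b → ∀ (w : ℂ) (C : ℝ),
      (∀ t ∈ Icc c d, ‖g (σ.toFun t) - w‖ ≤ C) →
      ‖(f (σ.toFun d) - f (σ.toFun c)) - w * (σ.toFun d - σ.toFun c)‖ ≤
        C * (eVariationOn σ.toFun (Icc c d)).toReal) :
    HasContourIntegral σ g (f σ.finish - f σ.start) := by
  intro ε hε
  set W : ℝ := (eVariationOn σ.toFun (Icc σ.a σ.b)).toReal with hW
  have hW0 : 0 ≤ W := ENNReal.toReal_nonneg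
  have huc : UniformContinuousOn (fun t => g (σ.toFun t)) (Icc σ.a σ.b) :=
    isCompact_Icc.uniformContinuousOn_of_continuous hg
  rw [Metric.uniformContinuousOn_iff] at huc
  obtain ⟨δ, hδ, hδ'⟩ := huc (ε / (W + 1)) (by positivity)
  refine ⟨δ, hδ, fun n t ξ ht0 htn hmesh => ?_⟩
  -- monotonicity of the partition
  have hstep : ∀ j < n, t j ≤ t (j + 1) := fun j hj => (hmesh j hj).1.trans (hmesh j hj).2.1
  have hmono : MonotoneOn t (Iic n) := by
    intro i hi j hj hij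
    induction j, hij using Nat.le_induction with
    | base => exact le_rfl
    | succ k hk ih =>
      have hk' : k < n := hj
      exact (ih hk'.le).trans (hstep k hk')
  have hmem : ∀ j ≤ n, t j ∈ Icc σ.a σ.b := fun j hj =>
    ⟨ht0 ▸ hmono (show 0 ∈ Iic n from Nat.zero_le n) hj (Nat.zero_le j),
      htn ▸ hmono hj (Set.mem_Iic.2 le_rfl) hj⟩
  have htel : f σ.finish - f σ.start =
      ∑ j ∈ Finset.range n, (f (σ.toFun (t (j + 1))) - f (σ.toFun (t j))) := by
    rw [Finset.sum_range_sub (fun j => f (σ.toFun (t j))), ht0, htn]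
    rfl
  have hvar : ∑ j ∈ Finset.range n, (eVariationOn σ.toFun (Icc (t j) (t (j + 1)))).toReal = W := by
    -- use a monotone extension of the partition
    set t' : ℕ → ℝ := fun j => t (min j n) with ht'
    have hmono' : Monotone t' := fun i j hij =>
      hmono (Set.mem_Iic.2 (min_le_right _ _)) (Set.mem_Iic.2 (min_le_right _ _))
        (min_le_min_right n hij)
    have hsum := eVariationOn.sum' σ.toFun hmono' (n := n)
    have e1 : ∀ j ∈ Finset.range n, eVariationOn σ.toFun (Icc (t' j) (t' (j + 1))) =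
        eVariationOn σ.toFun (Icc (t j) (t (j + 1))) := by
      intro j hj
      rw [Finset.mem_range] at hj
      simp only [ht', min_eq_left hj.le, min_eq_left (Nat.succ_le_of_lt hj)]
    rw [Finset.sum_congr rfl e1] at hsum
    have e2 : t' 0 = σ.a := by simp [ht', ht0]
    have e3 : t' n = σ.b := by simp [ht', htn]
    rw [e2, e3] at hsum
    rw [hW, ← hsum, ENNReal.toReal_sum]
    intro j hj
    rw [Finset.mem_range] at hj
    exact (hBV.mono (Icc_subset_Icc (hmem j hj.le).1 (hmem (j + 1) hj).2))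
  rw [htel, ← Finset.sum_sub_distrib]
  calc ‖∑ j ∈ Finset.range n, (g (σ.toFun (ξ j)) * (σ.toFun (t (j + 1)) - σ.toFun (t j)) -
        (f (σ.toFun (t (j + 1))) - f (σ.toFun (t j))))‖
      ≤ ∑ j ∈ Finset.range n, ‖g (σ.toFun (ξ j)) * (σ.toFun (t (j + 1)) - σ.toFun (t j)) -
        (f (σ.toFun (t (j + 1))) - f (σ.toFun (t j)))‖ := norm_sum_le _ _
    _ ≤ ∑ j ∈ Finset.range n, ε / (W + 1) *
        (eVariationOn σ.toFun (Icc (t j) (t (j + 1)))).toReal := by
        refine Finset.sum_le_sum fun j hj => ?_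
        rw [Finset.mem_range] at hj
        rw [norm_sub_rev]
        refine H (t j) (t (j + 1)) (hmem j hj.le).1 (hstep j hj) (hmem (j + 1) hj).2
          (g (σ.toFun (ξ j))) _ fun s hs => ?_
        have h1 : s ∈ Icc σ.a σ.b := ⟨(hmem j hj.le).1.trans hs.1, hs.2.trans (hmem (j + 1) hj).2⟩
        have h2 : ξ j ∈ Icc σ.a σ.b := ⟨(hmem j hj.le).1.trans (hmesh j hj).1,
          (hmesh j hj).2.1.trans (hmem (j + 1) hj).2⟩
        have h3 : dist s (ξ j) < δ := by
          rw [Real.dist_eq, abs_lt]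
          constructor
          · linarith [(hmesh j hj).2.2, (hmesh j hj).2.1, hs.1]
          · linarith [(hmesh j hj).2.2, (hmesh j hj).1, hs.2]
        have h4 := hδ' s h1 (ξ j) h2 h3
        rw [dist_eq_norm] at h4
        exact h4.le
    _ = ε / (W + 1) * W := by rw [← Finset.mul_sum, hvar]
    _ < ε := by
        rw [div_mul_eq_mul_div, div_lt_iff₀ (by linarith)]
        nlinarith

/-- Unit speed reparametrisation of a rectifiable path. -/
lemma exists_unit_speed (Γ : CPath) (hΓ : Γ.IsRectifiable) :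
    ∃ (L : ℝ) (V : ℝ → ℝ) (G : ℝ → ℂ), 0 ≤ L ∧ MonotoneOn V (Icc Γ.a Γ.b) ∧
      V '' Icc Γ.a Γ.b = Icc 0 L ∧ LipschitzWith 1 G ∧
      (∀ᵐ s : ℝ, s ∈ Icc 0 L → DifferentiableAt ℝ G s ∧ ‖deriv G s‖ = 1) ∧
      (∀ t ∈ Icc Γ.a Γ.b, G (V t) = Γ.toFun t) ∧
      (∀ c d : ℝ, Γ.a ≤ c → c ≤ d → d ≤ Γ.b →
        V d - V c = (eVariationOn Γ.toFun (Icc c d)).toReal) := by
  set a := Γ.a with ha
  set b := Γ.b with hb
  have hab : a ≤ b := Γ.a_lt_b.le
  have hLBV : LocallyBoundedVariationOn Γ.toFun (Icc a b) :=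
    BoundedVariationOn.locallyBoundedVariationOn hΓ
  have haI : a ∈ Icc a b := ⟨le_rfl, hab⟩
  have hbI : b ∈ Icc a b := ⟨hab, le_rfl⟩
  set V : ℝ → ℝ := variationOnFromTo Γ.toFun (Icc a b) a with hVdef
  have hVmono : MonotoneOn V (Icc a b) := variationOnFromTo.monotoneOn hLBV haI
  have hVa : V a = 0 := variationOnFromTo.self _ _ _
  have hVdiff : ∀ c d : ℝ, a ≤ c → c ≤ d → d ≤ b →
      V d - V c = (eVariationOn Γ.toFun (Icc c d)).toReal := by
    intro c d hc hcd hd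
    have h1 : V d - V c = variationOnFromTo Γ.toFun (Icc a b) c d :=
      variationOnFromTo.sub_right hLBV haI ⟨hc.trans hcd, hd⟩ ⟨hc, hcd.trans hd⟩
    rw [h1, variationOnFromTo.eq_of_le _ _ hcd,
      inter_eq_self_of_subset_right (Icc_subset_Icc hc hd)]
  -- continuity of `V`
  have hVcont : ContinuousOn V (Icc a b) := by
    intro x hx
    have hleft : Tendsto V (𝓝[Icc a b ∩ Iio x] x) (𝓝 (V x)) := by
      have := variationOnFromTo.tendsto_left (f := Γ.toFun) (l := Γ.toFun x) haI hx hLBV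
        ((Γ.continuousOn x hx).mono_left (nhdsWithin_mono _ inter_subset_left))
      simpa using this
    have hright : Tendsto V (𝓝[Icc a b ∩ Ioi x] x) (𝓝 (V x)) := by
      have := variationOnFromTo.tendsto_right (f := Γ.toFun) (l := Γ.toFun x) haI hx hLBV
        ((Γ.continuousOn x hx).mono_left (nhdsWithin_mono _ inter_subset_left))
      simpa using this
    have hdec : Icc a b = (Icc a b ∩ Iio x) ∪ ({x} ∪ (Icc a b ∩ Ioi x)) := by
      ext y
      constructor
      · intro hy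
        rcases lt_trichotomy y x with h | h | h
        · exact Or.inl ⟨hy, h⟩
        · exact Or.inr (Or.inl h)
        · exact Or.inr (Or.inr ⟨hy, h⟩)
      · rintro (h | h | h)
        · exact h.1
        · rw [mem_singleton_iff] at h; rw [h]; exact hx
        · exact h.1
    have : Tendsto V (𝓝[(Icc a b ∩ Iio x) ∪ ({x} ∪ (Icc a b ∩ Ioi x))] x) (𝓝 (V x)) := by
      rw [nhdsWithin_union, nhdsWithin_union, nhdsWithin_singleton]
      exact hleft.sup ((tendsto_pure_nhds V x).sup hright)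
    rw [← hdec] at this
    exact this
  set L : ℝ := V b with hLdef
  have hL : 0 ≤ L := by rw [← hVa]; exact hVmono haI hbI hab
  have hVimg : V '' Icc a b = Icc 0 L := by
    apply Subset.antisymm
    · rintro _ ⟨t, ht, rfl⟩
      exact ⟨hVa ▸ hVmono haI ht ht.1, hVmono ht hbI ht.2⟩
    · have := intermediate_value_Icc hab hVcont
      rwa [hVa] at this
  set G₀ : ℝ → ℂ := naturalParameterization Γ.toFun (Icc a b) a with hG₀
  have hG₀eq : ∀ t ∈ Icc a b, G₀ (V t) = Γ.toFun t := fun t ht =>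
    edist_eq_zero.1 (edist_naturalParameterization_eq_zero hLBV haI ht)
  have hunit : HasUnitSpeedOn G₀ (Icc 0 L) := by
    have := has_unit_speed_naturalParameterization Γ.toFun hLBV haI
    rwa [show variationOnFromTo Γ.toFun (Icc a b) a '' Icc a b = Icc 0 L from hVimg] at this
  have hvarG₀ : ∀ x ∈ Icc 0 L, ∀ y ∈ Icc 0 L, x ≤ y →
      eVariationOn G₀ (Icc x y) = ENNReal.ofReal (y - x) := by
    intro x hx y hy hxy
    have := hunit hx hy
    rw [inter_eq_self_of_subset_right (Icc_subset_Icc hx.1 hy.2)] at this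
    simpa using this
  have hLipG₀ : ∀ x ∈ Icc 0 L, ∀ y ∈ Icc 0 L, dist (G₀ x) (G₀ y) ≤ dist x y := by
    have key : ∀ x ∈ Icc 0 L, ∀ y ∈ Icc 0 L, x ≤ y → dist (G₀ x) (G₀ y) ≤ y - x := by
      intro x hx y hy hxy
      have h1 : edist (G₀ x) (G₀ y) ≤ ENNReal.ofReal (y - x) := by
        rw [← hvarG₀ x hx y hy hxy]
        exact eVariationOn.edist_le G₀ ⟨le_rfl, hxy⟩ ⟨hxy, le_rfl⟩
      rw [edist_dist] at h1
      exact (ENNReal.ofReal_le_ofReal_iff (by linarith)).1 h1
    intro x hx y hy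
    rcases le_total x y with h | h
    · rw [Real.dist_eq, abs_sub_comm, abs_of_nonneg (by linarith)]
      exact key x hx y hy h
    · rw [Real.dist_eq, abs_of_nonneg (by linarith), dist_comm]
      exact key y hy x hx h
  -- extension to the whole line
  set G : ℝ → ℂ := fun s => G₀ (projIcc 0 L hL s) with hGdef
  have hGeq : ∀ s ∈ Icc 0 L, G s = G₀ s := by
    intro s hs
    simp only [hGdef, projIcc_of_mem hL hs]
  have hGLip : LipschitzWith 1 G := by
    refine LipschitzWith.of_dist_le_mul fun x y => ?_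
    rw [NNReal.coe_one, one_mul]
    calc dist (G x) (G y) ≤ dist ((projIcc 0 L hL x : ℝ)) (projIcc 0 L hL y : ℝ) :=
          hLipG₀ _ (projIcc 0 L hL x).2 _ (projIcc 0 L hL y).2
      _ ≤ dist x y := by
          have := (LipschitzWith.projIcc hL).dist_le_mul x y
          rw [NNReal.coe_one, one_mul, Subtype.dist_eq] at this
          exact this
  have hvarG : eVariationOn G (Icc 0 L) = ENNReal.ofReal L := by
    rw [eVariationOn.eq_of_eqOn (f' := G₀) fun s hs => hGeq s hs]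
    have := hvarG₀ 0 ⟨le_rfl, hL⟩ L ⟨hL, le_rfl⟩ hL
    simpa using this
  refine ⟨L, V, G, hL, hVmono, hVimg, hGLip, ae_norm_deriv_eq_one hGLip hL hvarG, ?_, hVdiff⟩
  intro t ht
  rw [hGeq _ (hVimg ▸ mem_image_of_mem V ht)]
  exact hG₀eq t ht

/-- Main theorem: if `Γ` is rectifiable, then every rectifiable path in `Γ*` satisfies the
integral identity, and every Jordan path in `Γ*` is rectifiable. -/
theorem main_integral (Γ : CPath) (hΓ : Γ.IsRectifiable) {f g : ℂ → ℂ}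
    (hfg : IsCollectionDerivative Γ.image {σ | σ.IsSubpath Γ} f g) (γ : CPath)
    (hγ : γ.IsRectifiable) (hγX : γ.image ⊆ Γ.image) :
    HasContourIntegral γ g (f γ.finish - f γ.start) := by
  obtain ⟨hf, hg, hint⟩ := hfg
  obtain ⟨L, V, G, hL, hVmono, hVimg, hG, hae, hGV, hVdiff⟩ := exists_unit_speed Γ hΓ
  have hX : Γ.image = G '' Icc 0 L := by
    rw [← hVimg, image_image]
    exact image_congr fun t ht => (hGV t ht).symm
  -- mean value inequality along `Γ`
  have hΓmv : ∀ (w : ℂ) (c d : ℝ), Γ.a ≤ c → c ≤ d → d ≤ Γ.b → ∀ C : ℝ,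
      (∀ t ∈ Icc c d, ‖g (Γ.toFun t) - w‖ ≤ C) →
      ‖(f (Γ.toFun d) - w * Γ.toFun d) - (f (Γ.toFun c) - w * Γ.toFun c)‖ ≤ C * (V d - V c) := by
    intro w c d hc hcd hd C hC
    rcases hcd.eq_or_lt with rfl | hlt
    · simp
    · let σ : CPath := ⟨Γ.toFun, c, d, hlt, Γ.continuousOn.mono (Icc_subset_Icc hc hd)⟩
      have hσ : σ.IsSubpath Γ := ⟨hc, hd, fun t _ => rfl⟩
      have h1 := hint σ hσ
      have h2 : BoundedVariationOn σ.toFun (Icc σ.a σ.b) :=
        BoundedVariationOn.mono hΓ (Icc_subset_Icc hc hd)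
      have h3 := mean_value_of_integral h2 h1 (w := w) (C := C) hC
      rw [hVdiff c d hc hcd hd]
      refine le_trans (le_of_eq ?_) h3
      congr 1
      show f (Γ.toFun d) - w * Γ.toFun d - (f (Γ.toFun c) - w * Γ.toFun c) =
        (f (Γ.toFun d) - f (Γ.toFun c)) - w * (Γ.toFun d - Γ.toFun c)
      ring
  -- transfer to `G`
  have hGmv : ∀ (w : ℂ) (s s' : ℝ), 0 ≤ s → s ≤ s' → s' ≤ L → ∀ C : ℝ,
      (∀ t ∈ Icc s s', ‖g (G t) - w‖ ≤ C) →
      ‖(f (G s') - w * G s') - (f (G s) - w * G s)‖ ≤ C * (s' - s) := by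
    intro w s s' hs hss' hs' C hC
    rcases hss'.eq_or_lt with rfl | hlt
    · simp
    · obtain ⟨c, hc, rfl⟩ : s ∈ V '' Icc Γ.a Γ.b := by rw [hVimg]; exact ⟨hs, hss'.trans hs'⟩
      obtain ⟨d, hd, rfl⟩ : s' ∈ V '' Icc Γ.a Γ.b := by rw [hVimg]; exact ⟨hs.trans hss', hs'⟩
      have hcd : c ≤ d := by
        by_contra hcon
        push Not at hcon
        exact absurd (hVmono hd hc hcon.le) (not_le.2 hlt)
      rw [hGV c hc, hGV d hd]
      refine hΓmv w c d hc.1 hcd hd.2 C fun t ht => ?_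
      have htI : t ∈ Icc Γ.a Γ.b := ⟨hc.1.trans ht.1, ht.2.trans hd.2⟩
      rw [← hGV t htI]
      exact hC _ ⟨hVmono hc htI ht.1, hVmono htI hd ht.2⟩
  apply integral_of_mean_value hγ
  · exact hg.comp γ.continuousOn fun t ht => hγX (mem_image_of_mem _ ht)
  · intro c d hc hcd hd w C hC
    have hsub : Icc c d ⊆ Icc γ.a γ.b := Icc_subset_Icc hc hd
    rw [hX] at hf hg hγX
    have := key_estimate (φ := fun z => f z - w * z) (h := fun z => g z - w) hG hae
      (hf.sub (continuousOn_const.mul continuousOn_id)) (hg.sub continuousOn_const)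
      (fun s s' h0 h1 h2 C' hC' => hGmv w s s' h0 h1 h2 C' hC') hcd
      (γ.continuousOn.mono hsub) (BoundedVariationOn.mono hγ hsub)
      ((image_mono hsub).trans hγX) (M := C) hC
    refine le_trans (le_of_eq ?_) this
    congr 1
    ring

theorem jordan_rectifiable (Γ : CPath) (hΓ : Γ.IsRectifiable) (γ : CPath)
    (hγ : γ.IsJordan) (hγX : γ.image ⊆ Γ.image) : γ.IsRectifiable := by
  obtain ⟨L, V, G, hL, hVmono, hVimg, hG, hae, hGV, hVdiff⟩ := exists_unit_speed Γ hΓ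
  have hX : Γ.image = G '' Icc 0 L := by
    rw [← hVimg, image_image]
    exact image_congr fun t ht => (hGV t ht).symm
  rw [hX] at hγX
  exact ne_top_of_le_ne_top ENNReal.ofReal_ne_top
    (jordan_variation_le hG γ.continuousOn hγ hγX)

theorem jordan_admissible (Γ : CPath) (hΓ : Γ.IsRectifiable) (γ : CPath)
    (hγ : γ.IsJordan) (hγX : γ.image ⊆ Γ.image) : γ.IsAdmissible := by
  refine ⟨jordan_rectifiable Γ hΓ γ hγ hγX, ?_⟩
  rintro σ ⟨h1, h2, h3⟩ ⟨z, hz⟩
  have hσ := σ.a_lt_b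
  have ha : σ.a ∈ Icc σ.a σ.b := ⟨le_rfl, hσ.le⟩
  have hb : σ.b ∈ Icc σ.a σ.b := ⟨hσ.le, le_rfl⟩
  have heq : γ.toFun σ.a = γ.toFun σ.b := by
    rw [← h3 _ ha, ← h3 _ hb, hz _ ha, hz _ hb]
  have := hγ ⟨h1, hσ.le.trans h2⟩ ⟨h1.trans hσ.le, h2⟩ heq
  exact hσ.ne this

/-- Every Jordan path in `Γ*`, and more generally every admissible path in `Γ*`, belongs to the
maximal collection generated by the subpaths of the admissible path `Γ`. -/
theorem mem_maximalCollection (Γ : CPath) (hΓ : Γ.IsAdmissible) (γ : CPath)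
    (hγX : γ.image ⊆ Γ.image) (hγ : γ.IsJordan ∨ γ.IsAdmissible) :
    γ ∈ maximalCollection Γ.image {σ | σ.IsSubpath Γ} := by
  have hadm : γ.IsAdmissible := by
    rcases hγ with h | h
    · exact jordan_admissible Γ hΓ.1 γ h hγX
    · exact h
  refine ⟨hadm, hγX, fun f g hfg σ hσ => ?_⟩
  obtain ⟨h1, h2, h3⟩ := hσ
  have hsub : Icc σ.a σ.b ⊆ Icc γ.a γ.b := Icc_subset_Icc h1 h2
  apply main_integral Γ hΓ.1 hfg σ
  · have : BoundedVariationOn γ.toFun (Icc σ.a σ.b) := BoundedVariationOn.mono hadm.1 hsub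
    show eVariationOn σ.toFun (Icc σ.a σ.b) ≠ ∞
    rw [eVariationOn.eq_of_eqOn (f' := γ.toFun) fun s hs => h3 s hs]
    exact this
  · rintro _ ⟨t, ht, rfl⟩
    rw [h3 t ht]
    exact hγX (mem_image_of_mem _ (hsub ht))

end Pool.Agent.Work.MP_78c6b8_an
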